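import Pool.Agent.Helper86.TK.Defs

/-! MP_5c2ead_an, project JL: AK(X) ~ AK(B_X) for the weighted Johnson-Lindenstrauss spaces XX r η
(Helper86/TK/Defs.lean) with Γ of size < aleph_omega. Row statements. -/

open Set Filter Topology Pool.Agent.Helper86.TK

namespace Pool.Agent.Helper65.JL

noncomputable section

/-- indicator function of a set of nodes -/
def chi (A : Set T) : T → ℝ := A.indicator 1

/-- `C` is a compact set of indicator functions of finite sets -/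
def FF (C : Set (T → ℝ)) : Prop :=
  IsCompact C ∧ (∀ c ∈ C, Null c) ∧ ∀ c ∈ C, ∀ t, c t = 0 ∨ c t = 1

/-- slices of the functions of C at height h -/
def Sl (C : Set (T → ℝ)) (h : ℝ) : Set (T → ℝ) :=
  closure {u | ∃ c ∈ C, ∃ i : ℕ, 1 ≤ i ∧ (u = chi {t | i * h ≤ c t} ∨ u = chi {t | i * h ≤ -c t})}

/-- the points (0, c), c ∈ C, of X -/
def PS {Γ : Type} (r : Γ → ℕ → Bool) (η : Γ → ℝ) (C : Set (T → ℝ)) : Set (XX r η) :=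
  {q | q.1.1 = 0 ∧ (fun t => q.1.2 t) ∈ C}

/-- combinations of m + m functions of Q with coefficients h and -h -/
def Mix (Q : Set (T → ℝ)) (m : ℕ) (h : ℝ) : Set (T → ℝ) :=
  {c | ∃ u v : Fin m → T → ℝ, (∀ i, u i ∈ Q) ∧ (∀ i, v i ∈ Q) ∧
    c = fun t => ∑ i, h * (u i t - v i t)}

/-- the c_0 part of p over a countable set d (separated by f) -/
def cp {Γ : Type} (r : Γ → ℕ → Bool) (η : Γ → ℝ) (d : Set Γ) (f : Γ → ℕ) (p : XX r η) : T → ℝ :=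
  fun t => p.1.2 t - SS r η d ∅ f f p.1.1 t

/-- initial segments of the leftmost branch -/
def seg (n : ℕ) : T → ℝ := chi {t | ∃ j ≤ n, t = nd (fun _ => true) j}

/-- the points of the big weakly compact set over d and C -/
def Big {Γ : Type} (r : Γ → ℕ → Bool) (η : Γ → ℝ) (d : Set Γ) (f : Γ → ℕ) (C : Set (T → ℝ)) :
    Set (XX r η) :=
  {q | (∀ x, x ∉ d → q.1.1 x = 0) ∧ ‖q.1.1‖ ≤ 1 ∧ ‖q‖ ≤ 4 ∧ cp r η d f q ∈ C}

/-- SL: u = lim u_a along an ultrafilter, c_a → c ∈ C, sign constant: u t = 1 gives h ≤ |c t|; T → ℝ: the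
closure is a closed subset of the compact set of functions with values in [0, 1]. -/
def ST_SL : Prop := ∀ (C : Set (T → ℝ)), IsCompact C → (∀ c ∈ C, Null c) → ∀ h > (0 : ℝ), FF (Sl C h)

/-- PSW [ST_WK]: G₀ = G₁ = ∅, R = 1 (SS over ∅ is 0, `finsum_mem_empty`). -/
def ST_PSW : Prop := ∀ (Γ : Type) (r : Γ → ℕ → Bool) (η : Γ → ℝ), Par r η → ∀ C, FF C →
  WCpt (PS r η C) ∧ ∀ q ∈ PS r η C, ‖q‖ ≤ 1

/-- PSE [ST_INX]: the point (0, c) belongs to X for c null with values 0, 1 (G₀ = G₁ = ∅). -/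
def ST_PSE : Prop := ∀ (Γ : Type) (r : Γ → ℕ → Bool) (η : Γ → ℝ), Par r η → ∀ c : T → ℝ,
  Null c → (∀ t, c t = 0 ∨ c t = 1) → ∃ q : XX r η, q.1.1 = 0 ∧ (fun t => q.1.2 t) = c

/-- MIX: continuous image of a compact power of Q; finite sums of null functions are null. -/
def ST_MIX : Prop := ∀ (Q : Set (T → ℝ)), FF Q → ∀ (m : ℕ) (h : ℝ),
  IsCompact (Mix Q m h) ∧ ∀ c ∈ Mix Q m h, Null c

/-- RCV: c* = Σ_(i < m) h (chi {(i+1) h ≤ c} - chi {(i+1) h ≤ -c}) = h ⌊c/h⌋ for c ≥ 0, etc. -/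
def ST_RCV : Prop := ∀ (Q : Set (T → ℝ)) (c : T → ℝ) (m : ℕ) (h : ℝ), 0 < h → 2 ≤ m * h →
  (∀ t, |c t| ≤ 2) → (∀ i : ℕ, 1 ≤ i → chi {t | i * h ≤ c t} ∈ Q ∧ chi {t | i * h ≤ -c t} ∈ Q) →
  ∃ c' ∈ Mix Q m h, ∀ t, |c t - c' t| ≤ h ∧ |c' t| ≤ 2

/-- FIN [ST_LIM]: as ST_FINE with weights ≥ θ: otherwise infinitely many x_n, l_n ∈ L, subsequence r (x_n) → z in
2^ω, weak cluster point l ∈ L (ultrafilter): l.2 (nd z m) ≥ 3 θ/4 for all m, but |l.1 x| ≤ θ/4 for all x, so the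
limit of l.2 (nd z m) is ≤ θ/4. -/
def ST_FIN : Prop := ∀ (Γ : Type) (r : Γ → ℕ → Bool) (η : Γ → ℝ), Par r η → ∀ θ > (0 : ℝ),
  ∀ L : Set (XX r η), WCpt L → {x : Γ | θ ≤ η x ∧ ∃ l ∈ L, ‖UX r η x - l‖ ≤ θ / 4}.Finite

/-- the indicator functions of finite sets which are 1/4-close to L -/
def QL {Γ : Type} (r : Γ → ℕ → Bool) (η : Γ → ℝ) (L : Set (XX r η)) : Set (T → ℝ) :=
  closure {u | (∀ t, u t = 0 ∨ u t = 1) ∧ ∃ q : XX r η, q.1.1 = 0 ∧ (fun t => q.1.2 t) = u ∧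
    ∃ l ∈ L, ‖q - l‖ ≤ 1 / 4}

/-- BND [ST_MEM]: u = lim u_a, l_a → l ∈ L weakly: on A = {u = 1} l.2 ≥ 3/4, |l.1 x| ≤ 1/4; ST_MEM for l with
ε = 1/8 gives c, D; outside a finite set of nodes at most one branch of the support of c passes through t, so
l.2 t ≤ 1/4 + 1/8 + 1/8 < 3/4: A is finite. -/
def ST_BND : Prop := ∀ (Γ : Type) (r : Γ → ℕ → Bool) (η : Γ → ℝ), Par r η →
  ∀ L : Set (XX r η), WCpt L → FF (QL r η L)

/-- CNT: if all seg n are in Q, so is their limit, which is not null. -/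
def ST_CNT : Prop := ∀ (Q : Set (T → ℝ)), FF Q → ∃ N₀ : ℕ, ∀ N : ℕ, (∀ n ≤ N, seg n ∈ Q) → N ≤ N₀

/-- SEG: the finitely many segments are a compact set of indicator functions of finite sets. -/
def ST_SEG : Prop := ∀ N : ℕ, FF (seg '' {n | n ≤ N})

/-- CCM [ST_SVAL, ST_C0]: p ↦ cp p t is a continuous functional (at most one x ∈ d contributes). -/
def ST_CCM : Prop := ∀ (Γ : Type) (r : Γ → ℕ → Bool) (η : Γ → ℝ), Par r η →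
  ∀ (d : Set Γ) (f : Γ → ℕ), Sep r d f → ∀ K : Set (XX r η), WCpt K → (∀ p ∈ K, ‖p‖ ≤ 1) →
  (∀ p ∈ K, ∀ x, x ∉ d → p.1.1 x = 0) →
  IsCompact (cp r η d f '' K) ∧ (∀ c ∈ cp r η d f '' K, Null c) ∧
    ∀ c ∈ cp r η d f '' K, ∀ t, |c t| ≤ 2

/-- BIG [ST_WK, ST_C0?]: ST_WK with G₀ = d, G₁ = ∅, R = 4. -/
def ST_BIG : Prop := ∀ (Γ : Type) (r : Γ → ℕ → Bool) (η : Γ → ℝ), Par r η →
  ∀ (d : Set Γ) (f : Γ → ℕ), Sep r d f → ∀ C : Set (T → ℝ), IsCompact C → (∀ c ∈ C, Null c) →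
  (∀ c ∈ C, ∀ t, |c t| ≤ 3) → WCpt (Big r η d f C)

/-- LFT [ST_INX, ST_SVAL]: q = (p.1, SS p.1 + c'). -/
def ST_LFT : Prop := ∀ (Γ : Type) (r : Γ → ℕ → Bool) (η : Γ → ℝ), Par r η →
  ∀ (d : Set Γ) (f : Γ → ℕ), Sep r d f → ∀ p : XX r η, ‖p‖ ≤ 1 → (∀ x, x ∉ d → p.1.1 x = 0) →
  ∀ (c' : T → ℝ) (h : ℝ), Null c' → (∀ t, |c' t| ≤ 2) → (∀ t, |cp r η d f p t - c' t| ≤ h) →
  0 ≤ h → ∀ C : Set (T → ℝ), c' ∈ C → ∃ q ∈ Big r η d f C, ‖p - q‖ ≤ h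

/-- CAR [ST_COF]: D = {univ} if Γ is countable; otherwise |Γ| = aleph n is regular uncountable, so some
{η ≥ 2^(-k)} has size aleph n, and D from ST_COF. -/
def ST_CAR : Prop := Cardinal.continuum.{0} < Cardinal.aleph Ordinal.omega0 →
  ∀ (Γ : Type) (r : Γ → ℕ → Bool) (η : Γ → ℝ), Par r η → Nonempty Γ →
  ∃ (D : Set (Set Γ)) (θ : ℝ) (ι : D → Γ), (∀ d ∈ D, d.Countable) ∧
    (∀ H : Set Γ, H.Countable → ∃ d ∈ D, H ⊆ d) ∧ 0 < θ ∧ Function.Injective ι ∧ ∀ d, θ ≤ η (ι d)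

/-- weakly compact sets contained in A, the relations and Tukey reducibility -/
def WC (X : Type) [NormedAddCommGroup X] [NormedSpace ℝ X] (A : Set X) : Type :=
  {K : Set X // K ⊆ A ∧ IsCompact (toWeakSpace ℝ X '' K)}

def AKr (X : Type) [NormedAddCommGroup X] [NormedSpace ℝ X] (A : Set X) (t : ℝ)
    (K L : WC X A) : Prop :=
  ∀ x ∈ K.1, ∃ y ∈ L.1, ‖x - y‖ ≤ t

def Tuk {P Q : Type} (leP : ℝ → P → P → Prop) (leQ : ℝ → Q → Q → Prop) : Prop :=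
  ∃ f : ℝ → P → Q, ∀ ε > 0, ∃ δ > 0, ∀ q₀ : Q, ∃ p₀ : P, ∀ p : P,
    leQ δ (f ε p) q₀ → leP ε p p₀

/-- MAP [ST_SUPP, ST_SEP, ST_SL, ST_PSW, ST_PSE, ST_MIX, ST_RCV, ST_FIN, ST_BND, ST_CNT, ST_SEG, ST_CCM, ST_BIG,
ST_LFT]: N, d, f chosen for K (K ⊆ N B, 1 ≤ N, support of K in d ∈ D), h = min (ε/N) 1,
F K = {UX (ι d)} ∪ PS (Sl (cp '' (K/N)) h) ∪ PS (seg '' {n ≤ N}), δ = min (θ/4) (1/4);
p₀ = union over N ≤ N₀ and the finitely many d of N • Big d (Mix (QL L) m h ∩ {|c| ≤ 3}). -/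
def ST_MAP : Prop := ∀ (Γ : Type) (r : Γ → ℕ → Bool) (η : Γ → ℝ), Par r η →
  (∃ (D : Set (Set Γ)) (θ : ℝ) (ι : D → Γ), (∀ d ∈ D, d.Countable) ∧
    (∀ H : Set Γ, H.Countable → ∃ d ∈ D, H ⊆ d) ∧ 0 < θ ∧ Function.Injective ι ∧ ∀ d, θ ≤ η (ι d)) →
  Tuk (AKr (XX r η) univ) (AKr (XX r η) {x | ‖x‖ ≤ 1})

/-- NEG: copy of fin_B in Helper86/TK/Final.lean (the theorems main_FINE, main_COARSE, main_SUPP, main_PIG of
Helper86/TK/Main.lean may be imported), for the space XX r η itself. -/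
def ST_NEG : Prop := Cardinal.aleph.{0} Ordinal.omega0 ≤ Cardinal.continuum →
  ∃ (Γ : Type) (r : Γ → ℕ → Bool) (η : Γ → ℝ), Par r η ∧ Nonempty Γ ∧
    ¬ Tuk (AKr (XX r η) univ) (AKr (XX r η) {x | ‖x‖ ≤ 1})

/-- NRF [ST_NREFL, ST_PSE, ST_BND, ST_CNT]: otherwise the unit ball L is weakly compact and seg n ∈ QL L for all n. -/
def ST_NRF : Prop := ∀ (Γ : Type) (r : Γ → ℕ → Bool) (η : Γ → ℝ), Par r η →
  ¬ Function.Surjective (NormedSpace.inclusionInDoubleDual ℝ (XX r η))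

end

end Pool.Agent.Helper65.JL
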